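import Pool.Agent.KS6_57.SG.Prod
import Pool.Agent.KS6_57.SG.Seven

/-!
# Soluble and absolutely simple group-theoretic numbers: the range `k ≥ 9`, `k ≠ 11`

`ie G` is the number of the orders of the non-normal subgroups of the finite group `G`. Every `k ≥ 9`
except possibly `11` is `ie G` for a finite group `G` that is neither soluble nor simple, and
`ie A₅ = 7`. The groups are `SL(2, 5) × D` with `D` cyclic of order `2 ^ a` (`ie = 3 a + 9`),
`A₅ × D` with `D` cyclic of order `2 ^ a` (`ie = 3 a + 7`), `A₅ × D` with `D` a modular group of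
order `2 ^ a` (`ie = 3 a + 8`), and `A₅ × C₇` (`ie = 14`).
-/

set_option autoImplicit false

namespace Pool.Agent.Results.MP_927db0_al.AllButEleven

open Pool.Agent.KS6_57.SG Pool.Agent.Q115.A5Sub Pool.Agent.Q115.ModGrp

/-- The set of the orders of the non-normal subgroups of `G`. -/
def nonNormalOrders (G : Type) [Group G] : Set ℕ :=
  {n | ∃ H : Subgroup G, Nat.card H = n ∧ ¬ H.Normal}

/-- `ie G`: the number of positive integers `n` such that `G` has a non-normal subgroup of
order `n`. -/
noncomputable def ie (G : Type) [Group G] : ℕ := (nonNormalOrders G).ncard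

/-- `k` is a soluble group-theoretic number. -/
def IsSolubleNumber (k : ℕ) : Prop :=
  0 < k ∧ ∀ (G : Type) [Group G] [Finite G], ie G = k → Group.IsSolvable G

/-- `k` is a simple group-theoretic number. -/
def IsSimpleNumber (k : ℕ) : Prop :=
  0 < k ∧ ∃ (G : Type) (_ : Group G) (_ : Finite G), IsSimpleGroup G ∧ ie G = k

/-- `k` is an absolutely simple group-theoretic number. -/
def IsAbsolutelySimpleNumber (k : ℕ) : Prop :=
  IsSimpleNumber k ∧
    ¬ ∃ (G : Type) (_ : Group G) (_ : Finite G),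
      ¬ Group.IsSolvable G ∧ ¬ IsSimpleGroup G ∧ ie G = k

theorem ie_eq (G : Type) [Group G] : ie G = BothSetsFinite.ie G := rfl

/-- every `k ≥ 9` except possibly `11` -/
theorem exists_group (k : ℕ) (hk : 9 ≤ k) (h11 : k ≠ 11) :
    ∃ (G : Type) (_ : Group G) (_ : Finite G),
      ¬ Group.IsSolvable G ∧ ¬ IsSimpleGroup G ∧ ie G = k := by
  simp only [ie_eq]
  have h3 : k % 3 = 0 ∨ k % 3 = 1 ∨ k % 3 = 2 := by omega
  rcases h3 with h | h | h
  · obtain ⟨m, rfl⟩ : ∃ m, k = 3 * m + 9 := ⟨(k - 9) / 3, by omega⟩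
    have : NeZero (2 ^ m) := ⟨by positivity⟩
    have hc : Nat.card (Multiplicative (ZMod (2 ^ m))) = 2 ^ m := by
      rw [Nat.card_congr Multiplicative.toAdd, Nat.card_zmod]
    exact ⟨S × Multiplicative (ZMod (2 ^ m)), inferInstance, inferInstance, not_solvable_S,
      not_simple_S, ie_S_prod hc⟩
  · obtain ⟨m, rfl⟩ : ∃ m, k = 3 * (m + 1) + 7 := ⟨(k - 10) / 3, by omega⟩
    have : NeZero (2 ^ (m + 1)) := ⟨by positivity⟩
    have hc : Nat.card (Multiplicative (ZMod (2 ^ (m + 1)))) = 2 ^ (m + 1) := by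
      rw [Nat.card_congr Multiplicative.toAdd, Nat.card_zmod]
    have : Fact (1 < 2 ^ (m + 1)) := ⟨Nat.one_lt_two_pow (by omega)⟩
    refine ⟨A5 × Multiplicative (ZMod (2 ^ (m + 1))), inferInstance, inferInstance,
      BothSetsFinite.not_solvable, BothSetsFinite.not_simple, ?_⟩
    rw [BothSetsFinite.ie_prod hc, BothSetsFinite.ie, BothSetsFinite.nonNormalOrders_comm,
      Set.ncard_empty]
  · by_cases h14 : k = 14
    · subst h14
      have hc : Nat.card (Multiplicative (ZMod 7)) = 7 := by
        rw [Nat.card_congr Multiplicative.toAdd, Nat.card_zmod]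
      have : Fact (1 < 7) := ⟨by norm_num⟩
      exact ⟨A5 × Multiplicative (ZMod 7), inferInstance, inferInstance,
        BothSetsFinite.not_solvable, BothSetsFinite.not_simple, ie_seven hc⟩
    · obtain ⟨m, rfl⟩ : ∃ m, k = 3 * m + 17 := ⟨(k - 17) / 3, by omega⟩
      have : Nontrivial (MG m) := ⟨s m, 1, s_ne_one⟩
      refine ⟨A5 × MG m, inferInstance, inferInstance,
        BothSetsFinite.not_solvable, BothSetsFinite.not_simple, ?_⟩
      rw [BothSetsFinite.ie_prod card_MG, BothSetsFinite.ie, BothSetsFinite.nonNormalOrders_MG,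
        Set.ncard_singleton]
      ring

/-- **Main theorem.** Every integer `k ≥ 9`, except possibly `11`, is `ie G` for some finite group
`G` that is neither soluble nor simple, and `7 = ie A₅`. Hence every soluble group-theoretic number
is one of `1, 2, 3, 4, 5, 6, 8, 11`, every absolutely simple group-theoretic number is at most `8`
or equal to `11`, the number `7` is simple and not soluble, and both sets are finite. -/
theorem result :
    (∀ k : ℕ, 9 ≤ k → k ≠ 11 → ∃ (G : Type) (_ : Group G) (_ : Finite G),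
      ¬ Group.IsSolvable G ∧ ¬ IsSimpleGroup G ∧ ie G = k) ∧
    {k : ℕ | IsSolubleNumber k} ⊆ {1, 2, 3, 4, 5, 6, 8, 11} ∧
    {k : ℕ | IsAbsolutelySimpleNumber k} ⊆ {1, 2, 3, 4, 5, 6, 7, 8, 11} ∧
    ¬ IsSolubleNumber 7 ∧ IsSimpleNumber 7 ∧
    {k : ℕ | IsSolubleNumber k}.Finite ∧ {k : ℕ | IsAbsolutelySimpleNumber k}.Finite := by
  have h7 : ¬ IsSolubleNumber 7 := fun h => not_solvable_A5 (h.2 A5 ie_A5)
  have h1 : {k : ℕ | IsSolubleNumber k} ⊆ {1, 2, 3, 4, 5, 6, 8, 11} := by
    rintro k hk
    have hk7 : k ≠ 7 := by rintro rfl; exact h7 hk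
    by_contra hcon
    simp only [Set.mem_insert_iff, Set.mem_singleton_iff, not_or] at hcon
    have hk0 : 0 < k := hk.1
    obtain ⟨G, _, _, hs, -, he⟩ := exists_group k (by omega) (by omega)
    exact hs (hk.2 G he)
  have h2 : {k : ℕ | IsAbsolutelySimpleNumber k} ⊆ {1, 2, 3, 4, 5, 6, 7, 8, 11} := by
    rintro k hk
    by_contra hcon
    simp only [Set.mem_insert_iff, Set.mem_singleton_iff, not_or] at hcon
    have hk0 : 0 < k := hk.1.1
    exact hk.2 (exists_group k (by omega) (by omega))
  exact ⟨exists_group, h1, h2, h7, ⟨by norm_num, A5, inferInstance, inferInstance, inferInstance,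
    ie_A5⟩, (Set.toFinite _).subset h1, (Set.toFinite _).subset h2⟩

end Pool.Agent.Results.MP_927db0_al.AllButEleven
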